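import Pool.Agent.Q107.Ham.Tour

/-!
# For every `k ≥ 3` there are non-Hamiltonian graphs with a Hamiltonian `k`-multiset graph
-/

set_option autoImplicit false

namespace Pool.Agent.Results.MP_593b6a_co.EveryK

open Multiset Q107.Ham

/-- The `k`-multiset graph `M_k(G)`: the vertices are the multisets of `k` vertices of `G`, and `B`
is adjacent to `A` if it arises from `A` by removing one copy of a vertex `u` and adding one copy
of a neighbour `v` of `u`. -/
def multisetGraph {V : Type} (G : SimpleGraph V) (k : ℕ) : SimpleGraph (Sym V k) where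
  Adj A B := ∃ u v, G.Adj u v ∧
    ∃ C : Multiset V, (A : Multiset V) = u ::ₘ C ∧ (B : Multiset V) = v ::ₘ C
  symm := ⟨by
    rintro A B ⟨u, v, h, C, h1, h2⟩
    exact ⟨v, u, h.symm, C, h2, h1⟩⟩
  loopless := ⟨by
    rintro A ⟨u, v, h, C, h1, h2⟩
    have h3 := h1.symm.trans h2
    rw [Multiset.cons_inj_left] at h3
    exact h.ne h3⟩

/-- the complete graphs on `0, ..., m + 3` and on `m + 3, m + 4, m + 5` -/
def Gr (m : ℕ) : SimpleGraph (Fin (m + 6)) where
  Adj u v := u ≠ v ∧ ((u.val ≤ m + 3 ∧ v.val ≤ m + 3) ∨ (m + 3 ≤ u.val ∧ m + 3 ≤ v.val))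
  symm := ⟨fun u v h => ⟨h.1.symm, by omega⟩⟩
  loopless := ⟨fun u h => h.1 rfl⟩

lemma ctx (m : ℕ) : Ctx (Gr m) (Finset.univ.filter fun z : Fin (m + 6) => z.val ≤ m + 3)
    ⟨m + 4, by omega⟩ ⟨m + 5, by omega⟩ ⟨m + 3, by omega⟩ ⟨0, by omega⟩ ⟨1, by omega⟩ where
  mem z := by
    have := z.2
    simp only [Finset.mem_filter, Finset.mem_univ, true_and, ne_eq, Fin.ext_iff]
    omega
  clique u hu v hv huv := by
    simp only [Finset.mem_filter, Finset.mem_univ, true_and] at hu hv
    exact ⟨huv, Or.inl ⟨hu, hv⟩⟩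
  four := by
    have h1 : ({⟨0, by omega⟩, ⟨1, by omega⟩, ⟨2, by omega⟩, ⟨3, by omega⟩} :
        Finset (Fin (m + 6))) ⊆ Finset.univ.filter fun z : Fin (m + 6) => z.val ≤ m + 3 := by
      intro z hz
      simp only [Finset.mem_insert, Finset.mem_singleton] at hz
      simp only [Finset.mem_filter, Finset.mem_univ, true_and]
      rcases hz with rfl | rfl | rfl | rfl <;> simp <;> omega
    refine le_trans ?_ (Finset.card_le_card h1)
    rw [Finset.card_insert_of_notMem, Finset.card_insert_of_notMem, Finset.card_insert_of_notMem,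
      Finset.card_singleton] <;> simp [Fin.ext_iff]
  hc := by simp
  ha := by simp
  ha' := by simp
  hac := by simp [Fin.ext_iff]
  hac' := by simp [Fin.ext_iff]
  haa := by simp [Fin.ext_iff]
  adj := ⟨by simp, by simp⟩
  adjx := ⟨by simp [Fin.ext_iff], by simp⟩
  adjy := ⟨by simp [Fin.ext_iff], by simp⟩

/-- a walk that avoids the cut vertex stays on one side -/
lemma side {m : ℕ} {u v : Fin (m + 6)} (q : (Gr m).Walk u v)
    (hq : ∀ w ∈ q.support, w.val ≠ m + 3) : ∀ w ∈ q.support, (w.val < m + 3 ↔ u.val < m + 3) := by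
  induction q with
  | nil =>
    intro w hw
    simp only [SimpleGraph.Walk.support_nil, List.mem_singleton] at hw
    rw [hw]
  | cons h q ih =>
    intro w hw
    rw [SimpleGraph.Walk.support_cons] at hw hq
    rename_i u' v' w'
    have h1 := hq u' List.mem_cons_self
    have h2 := hq v' (List.mem_cons_of_mem _ q.start_mem_support)
    have h3 := h.2
    rcases List.mem_cons.1 hw with hw | hw
    · rw [hw]
    · have h4 := ih (fun w hw => hq w (List.mem_cons_of_mem _ hw)) w hw
      rw [h4]
      omega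

lemma not_ham (m : ℕ) : ¬ (Gr m).IsHamiltonian := by
  intro h
  have : Nontrivial (Fin (m + 6)) := ⟨⟨0, by omega⟩, ⟨1, by omega⟩, by simp⟩
  obtain ⟨p, hp⟩ := h.exists_isHamiltonianCycle ⟨m + 3, by omega⟩
  have hcount := (SimpleGraph.Walk.isHamiltonianCycle_iff_isCycle_and_support_count_tail_eq_one.1
    hp).2
  cases p with
  | nil =>
    have := hcount ⟨0, by omega⟩
    simp at this
  | cons hadj q =>
    rename_i v
    rw [SimpleGraph.Walk.support_cons, List.tail_cons] at hcount
    -- the reversed rest of the cycle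
    have hcount' : ∀ a, q.reverse.support.count a = 1 := by
      intro a
      rw [SimpleGraph.Walk.support_reverse, List.count_reverse]
      exact hcount a
    generalize q.reverse = q' at hcount'
    cases q' with
    | nil =>
      have := hcount' ⟨0, by omega⟩
      simp at this
    | cons hadj' q'' =>
      rename_i v'
      rw [SimpleGraph.Walk.support_cons] at hcount'
      have hav : ∀ w ∈ q''.support, w.val ≠ m + 3 := by
        intro w hw hwv
        have hwe : w = ⟨m + 3, by omega⟩ := Fin.ext hwv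
        rw [hwe] at hw
        have h1 := hcount' ⟨m + 3, by omega⟩
        rw [List.count_cons_self] at h1
        have h2 := List.count_pos_iff.2 hw
        omega
      have hmem : ∀ w : Fin (m + 6), w.val ≠ m + 3 → w ∈ q''.support := by
        intro w hw
        have h1 := hcount' w
        rw [List.count_cons_of_ne (by
          intro h
          exact hw (by rw [← h]))] at h1
        exact List.count_pos_iff.1 (by omega)
      have h1 := side q'' hav _ (hmem ⟨0, by omega⟩ (by simp))
      have h2 := side q'' hav _ (hmem ⟨m + 4, by omega⟩ (by simp))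
      simp only at h1 h2
      omega

/-- For every `k ≥ 3` and every `n ≥ 6` (in particular for infinitely many `n ≥ k + 1`) there is a
graph on `n` vertices that is not Hamiltonian while its `k`-multiset graph is Hamiltonian. -/
theorem result (k n : ℕ) (hk : 3 ≤ k) (hn : 6 ≤ n) :
    ∃ G : SimpleGraph (Fin n), ¬ G.IsHamiltonian ∧ (multisetGraph G k).IsHamiltonian := by
  obtain ⟨m, rfl⟩ : ∃ m, n = m + 6 := ⟨n - 6, by omega⟩
  obtain ⟨j, rfl⟩ : ∃ j, k = j + 3 := ⟨k - 3, by omega⟩
  refine ⟨Gr m, not_ham m, ?_⟩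
  obtain ⟨h1, h2⟩ := tour (ctx m) j
  set s := pt (⟨m + 4, by omega⟩ : Fin (m + 6)) ⟨m + 5, by omega⟩ 0 0 (j + 3) ⟨m + 3, by omega⟩
    with hs
  set t := pt (⟨m + 4, by omega⟩ : Fin (m + 6)) ⟨m + 5, by omega⟩ 1 0 (j + 2) ⟨m + 3, by omega⟩
    with ht
  have hsc : s.card = j + 3 := by rw [hs]; simp [pt]
  have htc : t.card = j + 3 := by rw [ht]; simp [pt]; try omega
  let s' : Sym (Fin (m + 6)) (j + 3) := ⟨s, hsc⟩
  let t' : Sym (Fin (m + 6)) (j + 3) := ⟨t, htc⟩
  have h3 : HP (multisetGraph (Gr m) (j + 3)).Adj Set.univ s' t' := by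
    refine HP.lift (R := Step (Gr m)) (fun A : Sym (Fin (m + 6)) (j + 3) =>
      (A : Multiset (Fin (m + 6)))) Sym.coe_injective ?_ h1
    intro A
    constructor
    · rintro ⟨hA, _⟩
      exact ⟨⟨A, hA⟩, rfl⟩
    · rintro ⟨B, rfl⟩
      exact ⟨B.2, trivial⟩
  refine hamiltonian_of_HP _ h3 h2 ?_
  have h4 : Fintype.card (Fin (m + 6)) ≤ Fintype.card (Sym (Fin (m + 6)) (j + 3)) :=
    Fintype.card_le_of_injective (fun a => Sym.replicate (j + 3) a)
      (Sym.replicate_right_injective (by omega))
  rw [Fintype.card_fin] at h4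
  omega

end Pool.Agent.Results.MP_593b6a_co.EveryK
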